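import Mathlib

set_option autoImplicit false

namespace Pool.Agent.Results.MP_8ff099_gt.SigmaProduct

open Filter Topology

/-- A topological space `X` is selectively highly divergent if for every sequence `U n` of
nonempty open subsets one can choose points `x n ∈ U n` such that the sequence `x` has no
subsequence converging in `X`. -/
def SHD (X : Type) [TopologicalSpace X] : Prop :=
  ∀ U : ℕ → Set X, (∀ n, IsOpen (U n)) → (∀ n, (U n).Nonempty) →
    ∃ x : ℕ → X, (∀ n, x n ∈ U n) ∧
      ∀ φ : ℕ → ℕ, StrictMono φ → ∀ l : X, ¬ Tendsto (x ∘ φ) atTop (𝓝 l)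

/-- The index set, of size continuum. -/
abbrev Idx : Type := Set ℕ × Set ℕ

/-- The Cantor cube of weight continuum. -/
abbrev Cube : Type := Idx → Bool

/-- The Sigma-product: points of the cube with countable support. -/
abbrev Sig : Type := {x : Cube // {i | x i = true}.Countable}

theorem not_countable_set_nat : ¬ Countable (Set ℕ) := by
  intro h3
  have h4 := Cardinal.mk_le_aleph0_iff.mpr h3
  rw [Cardinal.mk_set, Cardinal.mk_nat] at h4
  exact absurd h4 (not_le.mpr (Cardinal.cantor _))

theorem cube_diverge (F : ℕ → Finset Idx) (s : ℕ → Cube) :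
    ∃ z : ℕ → Cube, (∀ n, ∀ i ∈ F n, z n i = s n i) ∧
      ∀ φ : ℕ → ℕ, StrictMono φ → ∀ l : Cube, ¬ Tendsto (z ∘ φ) atTop (𝓝 l) := by
  classical
  refine ⟨fun n i => if i ∈ F n then s n i else decide (n ∈ i.1), ?_, ?_⟩
  · intro n i hi
    simp [hi]
  · intro φ hφ l hl
    set A : Set ℕ := {m | ∃ k, m = φ (2 * k)} with hA
    have hAeven : ∀ k, φ (2 * k) ∈ A := fun k => ⟨k, rfl⟩
    have hAodd : ∀ k, φ (2 * k + 1) ∉ A := by
      rintro k ⟨j, hj⟩
      have := hφ.injective hj
      omega
    have hcount : (⋃ n, ((F n : Finset Idx) : Set Idx)).Countable :=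
      Set.countable_iUnion fun n => (F n).countable_toSet
    have hex : ∃ t : Set ℕ, (A, t) ∉ ⋃ n, ((F n : Finset Idx) : Set Idx) := by
      by_contra hcon
      push Not at hcon
      have h1 : ((fun t : Set ℕ => ((A, t) : Idx)) ⁻¹' ⋃ n, ((F n : Finset Idx) : Set Idx)).Countable :=
        hcount.preimage (fun t t' h => (Prod.mk.inj h).2)
      have h2 : ((fun t : Set ℕ => ((A, t) : Idx)) ⁻¹' ⋃ n, ((F n : Finset Idx) : Set Idx)) =
          Set.univ := Set.eq_univ_of_forall hcon
      rw [h2] at h1
      exact not_countable_set_nat (Set.countable_univ_iff.mp h1)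
    obtain ⟨t, ht⟩ := hex
    have htn : ∀ n, (A, t) ∉ F n := fun n hn => ht (Set.mem_iUnion.mpr ⟨n, hn⟩)
    have hlim := (tendsto_pi_nhds.mp hl) (A, t)
    have hev : ∀ᶠ m in atTop, (if (A, t) ∈ F (φ m) then s (φ m) (A, t) else
        decide (φ m ∈ A)) = l (A, t) := by
      have := hlim.eventually (eventually_mem_nhds_iff.mpr
        ((isOpen_discrete ({l (A, t)} : Set Bool)).mem_nhds rfl))
      filter_upwards [this] with m hm
      have := mem_of_mem_nhds hm
      simpa using this
    obtain ⟨N, hN⟩ := eventually_atTop.mp hev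
    have e1 := hN (2 * N) (by omega)
    have e2 := hN (2 * N + 1) (by omega)
    rw [if_neg (htn _)] at e1 e2
    have := hAeven N
    have := hAodd N
    simp_all

/-- The extension of the inclusion of the Sigma-product into the cube to the Stone-Cech
compactification. -/
noncomputable def proj : StoneCech Sig → Cube :=
  stoneCechExtend (g := fun x : Sig => x.1) continuous_subtype_val

theorem continuous_proj : Continuous proj := continuous_stoneCechExtend _

theorem proj_unit (x : Sig) : proj (stoneCechUnit x) = x.1 := by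
  have := stoneCechExtend_extends (g := fun x : Sig => x.1) continuous_subtype_val
  exact congrFun this x

theorem proj_open (U : Set (StoneCech Sig)) (hU : IsOpen U) (hne : U.Nonempty) :
    ∃ (F : Finset Idx) (s : Cube), ∀ z : Cube, (∀ i ∈ F, z i = s i) → ∃ y ∈ U, proj y = z := by
  classical
  obtain ⟨x0, hx0⟩ : ∃ x0 : Sig, stoneCechUnit x0 ∈ U :=
    denseRange_stoneCechUnit.exists_mem_open hU hne
  obtain ⟨W, hWn, hWc, hWU⟩ : ∃ W ∈ 𝓝 (stoneCechUnit x0), IsClosed W ∧ W ⊆ U :=
    exists_mem_nhds_isClosed_subset (hU.mem_nhds hx0)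
  have hpre : (stoneCechUnit : Sig → StoneCech Sig) ⁻¹' W ∈ 𝓝 x0 :=
    continuous_stoneCechUnit.continuousAt.preimage_mem_nhds hWn
  rw [nhds_subtype_eq_comap, Filter.mem_comap] at hpre
  obtain ⟨V, hV, hVW⟩ := hpre
  obtain ⟨V', hV'V, hV'o, hx0V'⟩ := mem_nhds_iff.mp hV
  obtain ⟨F, u, hu, hFV⟩ := isOpen_pi_iff.mp hV'o x0.1 hx0V'
  refine ⟨F, x0.1, fun z hz => ?_⟩
  -- `z` lies in the image of `W`
  have hcl : IsClosed (proj '' W) := (hWc.isCompact.image continuous_proj).isClosed
  have hzcl : z ∈ closure (proj '' W) := by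
    rw [mem_closure_iff]
    intro N hN hzN
    obtain ⟨G, v, hv, hGN⟩ := isOpen_pi_iff.mp hN z hzN
    let w : Cube := fun i => if i ∈ F ∪ G then z i else false
    have hwc : {i | w i = true}.Countable := by
      refine Set.Countable.mono ?_ (F ∪ G).countable_toSet
      intro i hi
      by_contra hiG
      have : w i = false := if_neg hiG
      simp [this] at hi
    have hwi : ∀ i ∈ F ∪ G, w i = z i := fun i hi => if_pos hi
    refine ⟨w, hGN ?_, ⟨stoneCechUnit ⟨w, hwc⟩, ?_, proj_unit _⟩⟩
    · intro i hi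
      rw [hwi i (Finset.mem_union_right _ hi)]
      exact (hv i hi).2
    · apply hVW
      apply hV'V
      apply hFV
      intro i hi
      change w i ∈ u i
      rw [hwi i (Finset.mem_union_left _ hi), hz i hi]
      exact (hu i hi).2
  rw [hcl.closure_eq] at hzcl
  obtain ⟨y, hyW, hy⟩ := hzcl
  exact ⟨y, hWU hyW, hy⟩

theorem shd_stoneCech : SHD (StoneCech Sig) := by
  intro U hU hne
  choose F s hFs using fun n => proj_open (U n) (hU n) (hne n)
  obtain ⟨z, hz, hdiv⟩ := cube_diverge F s
  choose y hyU hyz using fun n => hFs n (z n) (hz n)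
  refine ⟨y, hyU, fun φ hφ l hl => hdiv φ hφ (proj l) ?_⟩
  have h1 : Tendsto (proj ∘ (y ∘ φ)) atTop (𝓝 (proj l)) :=
    (continuous_proj.tendsto l).comp hl
  have h2 : proj ∘ (y ∘ φ) = z ∘ φ := funext fun n => hyz (φ n)
  rwa [h2] at h1

theorem seqCompact_Sig : SeqCompactSpace Sig := by
  classical
  refine ⟨fun x _ => ?_⟩
  let S : Set Idx := ⋃ n, {i | (x n).1 i = true}
  have hS : S.Countable := Set.countable_iUnion fun n => (x n).2
  have : Countable S := hS.to_subtype
  obtain ⟨l', -, φ, hφ, hl'⟩ :=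
    (SeqCompactSpace.isSeqCompact_univ (X := S → Bool)) (x := fun n (i : S) => (x n).1 i.1) (fun n => Set.mem_univ _)
  let l : Cube := fun i => if h : i ∈ S then l' ⟨i, h⟩ else false
  have hlc : {i | l i = true}.Countable := by
    refine Set.Countable.mono ?_ hS
    intro i hi
    by_contra hiS
    have : l i = false := dif_neg hiS
    simp [this] at hi
  refine ⟨⟨l, hlc⟩, Set.mem_univ _, φ, hφ, ?_⟩
  rw [tendsto_subtype_rng, tendsto_pi_nhds]
  intro i
  by_cases hi : i ∈ S
  · have h1 := (tendsto_pi_nhds.mp hl') ⟨i, hi⟩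
    have h2 : l i = l' ⟨i, hi⟩ := dif_pos hi
    change Tendsto (fun n => (x (φ n)).1 i) atTop (𝓝 (l i))
    rw [h2]
    exact h1
  · have h2 : l i = false := dif_neg hi
    change Tendsto (fun n => (x (φ n)).1 i) atTop (𝓝 (l i))
    have h3 : ∀ n, (x (φ n)).1 i = false := by
      intro n
      by_contra h
      exact hi (Set.mem_iUnion.mpr ⟨φ n, by simpa using h⟩)
    rw [h2]
    simp only [h3]
    exact tendsto_const_nhds

theorem not_shd_Sig : ¬ SHD Sig := by
  intro h
  obtain ⟨x, -, hx⟩ := h (fun _ => Set.univ) (fun _ => isOpen_univ)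
    (fun _ => ⟨⟨fun _ => false, by simp⟩, trivial⟩)
  have := seqCompact_Sig
  obtain ⟨l, -, φ, hφ, hl⟩ := (SeqCompactSpace.isSeqCompact_univ (X := Sig)) (x := x)
    (fun n => Set.mem_univ _)
  exact hx φ hφ l hl

theorem not_compact_Sig : ¬ CompactSpace Sig := by
  classical
  intro h
  have hr : IsClosed (Set.range (Subtype.val : Sig → Cube)) :=
    (isCompact_range continuous_subtype_val).isClosed
  have hz : (fun _ => true : Cube) ∈ closure (Set.range (Subtype.val : Sig → Cube)) := by
    rw [mem_closure_iff]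
    intro N hN hzN
    obtain ⟨G, v, hv, hGN⟩ := isOpen_pi_iff.mp hN _ hzN
    have hwc : {i | (fun i => decide (i ∈ G) : Cube) i = true}.Countable := by
      refine Set.Countable.mono ?_ G.countable_toSet
      intro i hi
      simpa using hi
    refine ⟨fun i => decide (i ∈ G), hGN ?_, ⟨⟨_, hwc⟩, rfl⟩⟩
    intro i hi
    have : decide (i ∈ G) = true := by simpa using hi
    simp only [this]
    exact (hv i hi).2
  rw [hr.closure_eq] at hz
  obtain ⟨⟨w, hw⟩, hwz⟩ := hz
  simp only at hwz
  subst hwz
  have h1 : (Set.univ : Set Idx).Countable := by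
    refine hw.mono ?_
    intro i _
    rfl
  have h2 : Countable Idx := Set.countable_univ_iff.mp h1
  have h3 : Countable (Set ℕ) :=
    (show Function.Injective (fun t : Set ℕ => ((∅, t) : Idx)) from
      fun t t' h => (Prod.mk.inj h).2).countable
  exact not_countable_set_nat h3

/-- There is a non-compact Tychonoff space `X` (even a sequentially compact one) such that the
Stone-Cech compactification of `X` is selectively highly divergent but `X` is not. -/
theorem result : ∃ (X : Type) (_ : TopologicalSpace X),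
    T35Space X ∧ ¬ CompactSpace X ∧ SeqCompactSpace X ∧ SHD (StoneCech X) ∧ ¬ SHD X :=
  ⟨Sig, inferInstance, inferInstance, not_compact_Sig, seqCompact_Sig, shd_stoneCech, not_shd_Sig⟩

end Pool.Agent.Results.MP_8ff099_gt.SigmaProduct
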